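import Pool.Agent.H17.EqSet

set_option autoImplicit false

namespace Pool.Agent.Results.MP_195d7c_lc.Counter

/-- the equality set of two morphisms of free monoids, as a language over `S` -/
def eqSet {S D : Type} (h g : FreeMonoid S →* FreeMonoid D) : Language S :=
  {w : List S | h (FreeMonoid.ofList w) = g (FreeMonoid.ofList w)}

theorem result : ∀ k : ℕ, k = 3 ∨ k = 4 →
    ∃ h g : FreeMonoid (Fin k) →* FreeMonoid (Fin 2),
      Function.Injective h ∧ Function.Injective g ∧ ¬ (eqSet h g).IsRegular := by
  have lift : ∀ {S : Type} (f : S → List (Fin 2)) (w : FreeMonoid S),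
      (FreeMonoid.lift (fun i => FreeMonoid.ofList (f i)) w).toList = w.toList.flatMap f := by
    intro S f w
    induction w using FreeMonoid.inductionOn' with
    | one => rfl
    | of_mul a w ih => simp [ih]
  have main : ∀ {S : Type} (ι : S → Fin 4), Function.Injective ι → ∀ x y z : S, ι x = 0 → ι y = 1 →
      ι z = 2 → ∃ h g : FreeMonoid S →* FreeMonoid (Fin 2),
      Function.Injective h ∧ Function.Injective g ∧ ¬ (eqSet h g).IsRegular := by
    intro S ι hι x y z hx hy hz
    have inj : ∀ F : Fin 4 → List (Fin 2), (∀ u v : List (Fin 4), u.flatMap F = v.flatMap F → u = v) →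
        Function.Injective (FreeMonoid.lift (fun i => FreeMonoid.ofList ((F ∘ ι) i))) := by
      intro F hF a b e
      have e2 := congrArg FreeMonoid.toList e
      rw [lift, lift] at e2
      refine FreeMonoid.toList.injective (List.map_injective_iff.2 hι (hF _ _ ?_))
      rw [List.flatMap_map, List.flatMap_map]; exact e2
    refine ⟨_, _, inj _ Pool.Agent.H17.EqSet.H_inj, inj _ Pool.Agent.H17.EqSet.G_inj,
      Pool.Agent.H17.EqSet.main ι x y z hx hy hz _ fun w => ?_⟩
    change _ = _ ↔ _
    rw [← FreeMonoid.toList.injective.eq_iff, lift, lift]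
    rfl
  rintro k (rfl | rfl)
  · exact main Fin.castSucc (Fin.castSucc_injective 3) 0 1 2 rfl rfl rfl
  · exact main id Function.injective_id 0 1 2 rfl rfl rfl

end Pool.Agent.Results.MP_195d7c_lc.Counter
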